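import Pool.Agent.V1185.Lio.M

/-!
# The Liouville sum oscillates around `√y / ζ(1/2)` in every window `[x, x log x]`

Let `L(y) = ∑_{n ≤ y} λ(n)`.  The value `ζ(1/2)` is a negative real number, and there is `c > 0` such that for every
sufficiently large `x` both `L(y) ≥ (1/ζ(1/2) + c) √y` and `L(y) ≤ (1/ζ(1/2) - c) √y` have solutions `y` in
`[x, x log x]`.
-/

set_option autoImplicit false

open Filter Topology Set

namespace Pool.Agent.Results.MP_a499ba_nt.LiouvilleBias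

/-- The summatory function of the Liouville function. -/
noncomputable def L (y : ℝ) : ℝ := ∑ n ∈ Finset.Icc 1 ⌊y⌋₊, ((ArithmeticFunction.liouville n : ℤ) : ℝ)

theorem result :
    ∃ z : ℝ, z < 0 ∧ riemannZeta (1 / 2) = z ∧ ∃ c : ℝ, 0 < c ∧ ∀ᶠ x : ℝ in atTop,
      (∃ y ∈ Icc x (x * Real.log x), (1 / z + c) * Real.sqrt y ≤ L y) ∧
      (∃ y ∈ Icc x (x * Real.log x), L y ≤ (1 / z - c) * Real.sqrt y) := by
  obtain ⟨c, hc, h⟩ := Pool.Agent.V1185.Lio.centred
  refine ⟨(riemannZeta (1 / 2)).re, Pool.Agent.V1185.Lio.zeta_half_neg, ?_, c, hc, h.mono fun x hx => ?_⟩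
  · rw [Pool.Agent.V1185.Lio.zeta_half, Complex.ofReal_re]
  · constructor
    · obtain ⟨y, hy, hy2⟩ := hx 1 (Or.inl rfl)
      refine ⟨y, hy, ?_⟩
      have : L y = Pool.Agent.V1185.Lio.LL y := rfl
      rw [this, add_mul, div_mul_eq_mul_div, one_mul]
      linarith
    · obtain ⟨y, hy, hy2⟩ := hx (-1) (Or.inr rfl)
      refine ⟨y, hy, ?_⟩
      have : L y = Pool.Agent.V1185.Lio.LL y := rfl
      rw [this, sub_mul, div_mul_eq_mul_div, one_mul]
      linarith

end Pool.Agent.Results.MP_a499ba_nt.LiouvilleBias
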