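import Pool.Agent.V1185.Lio.N

/-!
# Mean squares of both parts of `L(y) - √y / ζ(1/2)` over the windows `[x, x log x]`

Let `L(y) = ∑_{n ≤ y} λ(n)`.  There is `c > 0` such that for every sufficiently large `x` and both signs `s`
`∫_x^{x log x} (max(s (L(y) - √y/ζ(1/2)), 0) / y)² dy ≥ c`; here `ζ(1/2)` is a negative real number.
-/

set_option autoImplicit false

open Filter Topology Set MeasureTheory

namespace Pool.Agent.Results.MP_a499ba_nt.LiouvilleMeanSquares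

/-- The summatory function of the Liouville function. -/
noncomputable def L (y : ℝ) : ℝ := ∑ n ∈ Finset.Icc 1 ⌊y⌋₊, ((ArithmeticFunction.liouville n : ℤ) : ℝ)

theorem result :
    ∃ z : ℝ, z < 0 ∧ riemannZeta (1 / 2) = z ∧ ∃ c : ℝ, 0 < c ∧ ∀ᶠ x : ℝ in atTop, ∀ s : ℝ, s = 1 ∨ s = -1 →
      c ≤ ∫ y in x..(x * Real.log x), (max (s * (L y - Real.sqrt y / z)) 0 / y) ^ 2 := by
  obtain ⟨c, hc, h⟩ := Pool.Agent.V1185.Lio.centred_sq
  refine ⟨(riemannZeta (1 / 2)).re, Pool.Agent.V1185.Lio.zeta_half_neg, ?_, c, hc, h⟩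
  rw [Pool.Agent.V1185.Lio.zeta_half, Complex.ofReal_re]

end Pool.Agent.Results.MP_a499ba_nt.LiouvilleMeanSquares
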