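import Pool.Agent.V1185.Lio.I

/-!
# The Liouville sum in Gonek's normalisation on windows `[x, x log x]`

Let `L(y) = ∑_{n ≤ y} λ(n)` and `F(y) = √y (log log log y)^(5/4)`.

* If for one sign `s`, one real `C` and arbitrarily large `x` one has `s L(y) ≤ C F(y)` throughout `[x, x log x]`,
  then the Riemann Hypothesis holds and all nontrivial zeros are simple.
* For every gauge `G(y) = o(√y log y)`, in particular for `F`: either the Riemann Hypothesis holds with simple zeros,
  or in *every* window `[x, x log x]`, `x` large, both `L(y) / G(y)` and `-L(y) / G(y)` take arbitrarily large values.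
-/

set_option autoImplicit false

open Filter Topology Set

namespace Pool.Agent.Results.MP_a499ba_nt.LiouvilleWindows

/-- The summatory function of the Liouville function. -/
noncomputable def L (y : ℝ) : ℝ := ∑ n ∈ Finset.Icc 1 ⌊y⌋₊, ((ArithmeticFunction.liouville n : ℤ) : ℝ)

/-- Gonek's normalisation `√y (log log log y)^(5/4)`. -/
noncomputable def F (y : ℝ) : ℝ := Real.sqrt y * Real.log (Real.log (Real.log y)) ^ (5 / 4 : ℝ)

/-- The Riemann Hypothesis and the simplicity of all nontrivial zeros. -/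
def RHSimple : Prop :=
  ∀ ρ : ℂ, riemannZeta ρ = 0 → 0 < ρ.re → ρ.re < 1 → ρ.re = 1 / 2 ∧ deriv riemannZeta ρ ≠ 0

/-- For every `C` and all large `x`, both `L(y) > C G(y)` and `-L(y) > C G(y)` have solutions `y` in the window
`[x, x log x]`. -/
def BothLarge (G : ℝ → ℝ) : Prop :=
  ∀ C : ℝ, ∀ᶠ x : ℝ in atTop, ∀ s : ℝ, s = 1 ∨ s = -1 →
    ∃ y ∈ Icc x (x * Real.log x), C * G y < s * L y

/-- Gonek's gauge is small. -/
theorem gauge (ε : ℝ) (hε : 0 < ε) : ∀ᶠ y : ℝ in atTop, |F y| ≤ ε * (Real.sqrt y * Real.log y) := by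
  have h1 := (isLittleO_log_rpow_rpow_atTop (5 / 4 : ℝ) (show (0:ℝ) < 1 by norm_num)).def hε
  have h2 := (Real.tendsto_log_atTop.comp Real.tendsto_log_atTop).eventually h1
  have h3 := (Real.tendsto_log_atTop.comp Real.tendsto_log_atTop).eventually (eventually_gt_atTop 0)
  filter_upwards [h2, h3, Real.tendsto_log_atTop.eventually (eventually_gt_atTop 0)] with y hy hy1 hy2
  simp only [Function.comp_apply, Real.norm_eq_abs, Real.rpow_one] at hy hy1
  rw [abs_of_pos hy1] at hy
  have h5 : Real.log (Real.log y) ≤ Real.log y := (Real.log_le_sub_one_of_pos hy2).trans (by linarith)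
  have h6 : |Real.log (Real.log (Real.log y)) ^ (5 / 4 : ℝ)| ≤ ε * Real.log y :=
    hy.trans (mul_le_mul_of_nonneg_left h5 hε.le)
  unfold F
  rw [abs_mul, abs_of_nonneg (Real.sqrt_nonneg y)]
  calc Real.sqrt y * |Real.log (Real.log (Real.log y)) ^ (5 / 4 : ℝ)| ≤ Real.sqrt y * (ε * Real.log y) :=
        mul_le_mul_of_nonneg_left h6 (Real.sqrt_nonneg _)
    _ = _ := by ring

theorem dichotomy {G : ℝ → ℝ} (hG : ∀ ε : ℝ, 0 < ε → ∀ᶠ y : ℝ in atTop, |G y| ≤ ε * (Real.sqrt y * Real.log y)) :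
    RHSimple ∨ BothLarge G :=
  Pool.Agent.V1185.Lio.dichotomyL hG

theorem result :
    (∀ s : ℝ, s = 1 ∨ s = -1 → ∀ C : ℝ,
      (∃ᶠ x : ℝ in atTop, ∀ y ∈ Icc x (x * Real.log x), s * L y ≤ C * F y) → RHSimple) ∧
    (∀ G : ℝ → ℝ, (∀ ε : ℝ, 0 < ε → ∀ᶠ y : ℝ in atTop, |G y| ≤ ε * (Real.sqrt y * Real.log y)) →
      RHSimple ∨ BothLarge G) ∧
    (RHSimple ∨ BothLarge F) := by
  refine ⟨?_, fun G hG => dichotomy hG, dichotomy gauge⟩
  intro s hs C h
  rcases dichotomy gauge with h1 | h1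
  · exact h1
  · exfalso
    obtain ⟨x, hx, hx2⟩ := (h.and_eventually (h1 C)).exists
    obtain ⟨y, hy, hy2⟩ := hx2 s hs
    have := hx y hy
    linarith

end Pool.Agent.Results.MP_a499ba_nt.LiouvilleWindows
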