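import Pool.Agent.H313R3.TK.J

/-!
# Gonek's normalisation of `M` on windows `[x, x log x]`

Let `M(y) = ∑_{n ≤ y} μ(n)` and `F(y) = √y (log log log y)^(5/4)`.

* There is `c > 0` such that, for every sufficiently large `x`, both `M(y) ≥ c √y` and `M(y) ≤ -c √y` have solutions
  `y` in `[x, x log x]`.
* Dichotomy: either the Riemann Hypothesis holds and all nontrivial zeros are simple, or in *every* window
  `[x, x log x]`, `x` large, both `M(y) / F(y)` and `-M(y) / F(y)` take arbitrarily large values; in the second case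
  even with `F(y)` replaced by `√y (log y)^(1 - ε)`.
-/

set_option autoImplicit false

open Filter Topology Set

namespace Pool.Agent.Results.MP_a499ba_nt.WindowExtremes

/-- The Mertens function. -/
noncomputable def M (y : ℝ) : ℝ := ∑ n ∈ Finset.Icc 1 ⌊y⌋₊, ((ArithmeticFunction.moebius n : ℤ) : ℝ)

/-- Gonek's normalisation `√y (log log log y)^(5/4)`. -/
noncomputable def F (y : ℝ) : ℝ := Real.sqrt y * Real.log (Real.log (Real.log y)) ^ (5 / 4 : ℝ)

/-- The Riemann Hypothesis and the simplicity of all nontrivial zeros. -/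
def RHSimple : Prop :=
  ∀ ρ : ℂ, riemannZeta ρ = 0 → 0 < ρ.re → ρ.re < 1 → ρ.re = 1 / 2 ∧ deriv riemannZeta ρ ≠ 0

/-- For every `C` and all large `x`, both `M(y) > C G(y)` and `-M(y) > C G(y)` have solutions `y` in the window
`[x, x log x]`. -/
def BothLarge (G : ℝ → ℝ) : Prop :=
  ∀ C : ℝ, ∀ᶠ x : ℝ in atTop, ∀ s : ℝ, s = 1 ∨ s = -1 →
    ∃ y ∈ Icc x (x * Real.log x), C * G y < s * M y

/-- from a lower bound with a large gauge to `BothLarge` -/
theorem both_of {G H : ℝ → ℝ} {c : ℝ} (hc : 0 < c)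
    (hG : ∀ ε : ℝ, 0 < ε → ∀ᶠ y : ℝ in atTop, |G y| ≤ ε * H y) (hH : ∀ᶠ y : ℝ in atTop, 0 < H y)
    (h : ∀ᶠ x : ℝ in atTop, ∀ s : ℝ, s = 1 ∨ s = -1 → ∃ y ∈ Icc x (x * Real.log x), c * H y ≤ s * M y) :
    BothLarge G := by
  intro C
  have h1 := hG (c / (2 * (|C| + 1))) (by positivity)
  obtain ⟨Y, hY⟩ := eventually_atTop.1 (h1.and hH)
  filter_upwards [h, eventually_ge_atTop Y] with x hx hxY s hs
  obtain ⟨y, hy, hy2⟩ := hx s hs
  obtain ⟨h2, h3⟩ := hY y (hxY.trans hy.1)
  refine ⟨y, hy, lt_of_lt_of_le ?_ hy2⟩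
  have h4 : C * G y ≤ |C| * |G y| := by rw [← abs_mul]; exact le_abs_self _
  have h5 : |C| * |G y| ≤ |C| * (c / (2 * (|C| + 1)) * H y) := mul_le_mul_of_nonneg_left h2 (abs_nonneg _)
  have h6 : |C| * (c / (2 * (|C| + 1)) * H y) = (|C| / (|C| + 1)) * (c / 2 * H y) := by
    field_simp
  have h7 : |C| / (|C| + 1) ≤ 1 := by
    rw [div_le_one (by positivity)]; linarith
  have h8 : 0 < c / 2 * H y := by positivity
  nlinarith [mul_pos hc h3]

/-- The Riemann Hypothesis with simple zeros, or both signs are large in every window, for any gauge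
`G = o(√y log y)`. -/
theorem dichotomy {G : ℝ → ℝ} (hG : ∀ ε : ℝ, 0 < ε → ∀ᶠ y : ℝ in atTop, |G y| ≤ ε * (Real.sqrt y * Real.log y)) :
    RHSimple ∨ BothLarge G := by
  by_cases hR : RHSimple
  · exact Or.inl hR
  right
  have hlogpos : ∀ᶠ y : ℝ in atTop, 0 < Real.sqrt y * Real.log y := by
    filter_upwards [eventually_gt_atTop 1] with y hy
    exact mul_pos (Real.sqrt_pos.2 (by linarith)) (Real.log_pos hy)
  -- a zero off the line
  have off : ∀ ρ : ℂ, riemannZeta ρ = 0 → 1 / 2 < ρ.re → ρ.re < 1 → BothLarge G := by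
    intro ρ hz h0 h1
    obtain ⟨c, hc, h⟩ := H313.TK.signs ρ hz h0.le h1
    refine both_of (H := fun y => y ^ ρ.re) hc ?_ ?_ h
    · intro ε hε
      have h3 := (isLittleO_log_rpow_atTop (show 0 < ρ.re - 1 / 2 by linarith)).def (show (0:ℝ) < 1 by norm_num)
      filter_upwards [hG ε hε, h3, eventually_gt_atTop 1] with y h4 h5 hy
      have hy0 : 0 < y := by linarith
      rw [Real.norm_eq_abs, Real.norm_eq_abs, abs_of_pos (Real.log_pos hy), abs_of_pos (Real.rpow_pos_of_pos hy0 _),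
        one_mul] at h5
      refine h4.trans (mul_le_mul_of_nonneg_left ?_ hε.le)
      calc Real.sqrt y * Real.log y ≤ Real.sqrt y * y ^ (ρ.re - 1 / 2) :=
            mul_le_mul_of_nonneg_left h5 (Real.sqrt_nonneg _)
        _ = y ^ ρ.re := by
            rw [Real.sqrt_eq_rpow, ← Real.rpow_add hy0]
            congr 1
            ring
    · filter_upwards [eventually_gt_atTop 0] with y hy
      exact Real.rpow_pos_of_pos hy _
  unfold RHSimple at hR
  push Not at hR
  obtain ⟨ρ, hz, h0, h1, hr⟩ := hR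
  rcases lt_trichotomy ρ.re (1 / 2) with hlt | heq | hgt
  · exact off (1 - ρ) (H313.TK.refl_zero ρ hz h0 h1) (by simp; linarith) (by simp; linarith)
  · obtain ⟨c, hc, h⟩ := H313.TK.signs2 ρ hz (hr heq) heq.ge h1
    refine both_of (H := fun y => y ^ ρ.re * Real.log y) hc ?_ ?_ h
    · intro ε hε
      filter_upwards [hG ε hε] with y hy
      rw [heq, ← Real.sqrt_eq_rpow]
      exact hy
    · filter_upwards [hlogpos] with y hy
      rw [heq, ← Real.sqrt_eq_rpow]
      exact hy
  · exact off ρ hz hgt h1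

/-- Gonek's gauge is small. -/
theorem gauge (ε : ℝ) (hε : 0 < ε) : ∀ᶠ y : ℝ in atTop, |F y| ≤ ε * (Real.sqrt y * Real.log y) := by
  have h1 := (isLittleO_log_rpow_rpow_atTop (5 / 4 : ℝ) (show (0:ℝ) < 1 by norm_num)).def hε
  have h2 := (Real.tendsto_log_atTop.comp Real.tendsto_log_atTop).eventually h1
  have h3 := (Real.tendsto_log_atTop.comp Real.tendsto_log_atTop).eventually (eventually_gt_atTop 0)
  filter_upwards [h2, h3, Real.tendsto_log_atTop.eventually (eventually_gt_atTop 0)] with y hy hy1 hy2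
  simp only [Function.comp_apply, Real.norm_eq_abs, Real.rpow_one] at hy hy1
  rw [abs_of_pos hy1] at hy
  have h5 : Real.log (Real.log y) ≤ Real.log y := (Real.log_le_sub_one_of_pos hy2).trans (by linarith)
  have h6 : |Real.log (Real.log (Real.log y)) ^ (5 / 4 : ℝ)| ≤ ε * Real.log y :=
    hy.trans (mul_le_mul_of_nonneg_left h5 hε.le)
  unfold F
  rw [abs_mul, abs_of_nonneg (Real.sqrt_nonneg y)]
  calc Real.sqrt y * |Real.log (Real.log (Real.log y)) ^ (5 / 4 : ℝ)| ≤ Real.sqrt y * (ε * Real.log y) :=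
        mul_le_mul_of_nonneg_left h6 (Real.sqrt_nonneg _)
    _ = _ := by ring

/-- **Main result.** (a) One constant `c > 0`: both signs reach `c √y` in every window `[x, x log x]`, `x` large.
(b) For one sign `s`, one constant `C` and arbitrarily large `x`: if `s M(y) ≤ C F(y)` throughout `[x, x log x]`, then
the Riemann Hypothesis holds and every nontrivial zero is simple.  (c) For every gauge `G = o(√y log y)`, in
particular for `F`: the Riemann Hypothesis holds with simple zeros, or `M / G` reaches every height with both signs in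
every window `[x, x log x]`, `x` large. -/
theorem result :
    (∃ c : ℝ, 0 < c ∧ ∀ᶠ x : ℝ in atTop, ∀ s : ℝ, s = 1 ∨ s = -1 →
      ∃ y ∈ Icc x (x * Real.log x), c * Real.sqrt y ≤ s * M y) ∧
    (∀ s : ℝ, s = 1 ∨ s = -1 → ∀ C : ℝ,
      (∃ᶠ x : ℝ in atTop, ∀ y ∈ Icc x (x * Real.log x), s * M y ≤ C * F y) → RHSimple) ∧
    (∀ G : ℝ → ℝ, (∀ ε : ℝ, 0 < ε → ∀ᶠ y : ℝ in atTop, |G y| ≤ ε * (Real.sqrt y * Real.log y)) →
      RHSimple ∨ BothLarge G) ∧
    (RHSimple ∨ BothLarge F) := by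
  refine ⟨?_, ?_, fun G hG => dichotomy hG, dichotomy gauge⟩
  · obtain ⟨ρ, hz, h0, h1⟩ := H313.TK.exists_zero
    obtain ⟨c, hc, h⟩ := H313.TK.signs ρ hz h0 h1
    refine ⟨c, hc, ?_⟩
    filter_upwards [h, eventually_ge_atTop 1] with x hx hx1 s hs
    obtain ⟨y, hy, hy2⟩ := hx s hs
    refine ⟨y, hy, le_trans (mul_le_mul_of_nonneg_left ?_ hc.le) hy2⟩
    rw [Real.sqrt_eq_rpow]
    exact Real.rpow_le_rpow_of_exponent_le (hx1.trans hy.1) h0
  · intro s hs C h
    rcases dichotomy gauge with h1 | h1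
    · exact h1
    · exfalso
      obtain ⟨x, hx, hx2⟩ := (h.and_eventually (h1 C)).exists
      obtain ⟨y, hy, hy2⟩ := hx2 s hs
      have := hx y hy
      linarith

end Pool.Agent.Results.MP_a499ba_nt.WindowExtremes
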